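import Mathlib
import Pool.Agent.H416R2.BFMain
import Pool.Agent.H416R2.BFDefs

set_option autoImplicit false

/-!
# MP_40718a_co: Berge–Fulkerson coverings / Jaeger quadruple covers through a pair of
perfect matchings in alternating position
-/

namespace Pool.Agent.Results.MP_40718a_co.AlternatingPairs

open Pool.Agent.H416R2.BF

/-- Let `G` be a finite cubic graph, `M₁`, `M₂` perfect matchings, `D` the graph of the edges in
exactly one of them (`diffG`), `Q` the graph of the edges in neither (`restG`), `H` the graph of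
the edges of `G` not in both (`sepG`).  Let `M₀` be a matching contained in `Q` that covers every
vertex not on `D`.  Call a pair `(x, y)` *special* if `x`, `y` are on `D`, are joined in `Q`, and
`M₀` covers `y` but not `x`.  Suppose that for every special pair `(x₁, y₁)` there is exactly one
other special pair `(x₂, y₂)` in the component of `H` containing `x₁`, and that these two pairs
alternate: every circuit of `D` in that component contains one of `x₁, y₁` and one of `x₂, y₂`,
and every walk in `D` from `x₁` to `y₁` meets `{x₂, y₂}`.  Then `G` has six perfect matchings,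
`M₁` and `M₂` among them, that cover every edge exactly twice; their complements are six even
subgraphs covering every edge exactly four times. -/
theorem result {V : Type*} [Fintype V] (G : SimpleGraph V) [DecidableRel G.Adj]
    (hG : G.IsRegularOfDegree 3) (M₁ M₂ M₀ : G.Subgraph)
    (h₁ : M₁.IsPerfectMatching) (h₂ : M₂.IsPerfectMatching) (h₀ : M₀.IsMatching)
    (hdis : ∀ u v, M₀.Adj u v → ¬ M₁.Adj u v ∧ ¬ M₂.Adj u v)
    (hcov : ∀ v, ¬ OnD M₁ M₂ v → v ∈ M₀.verts)
    (hsp : ∀ x₁ y₁, Special M₁ M₂ M₀ x₁ y₁ →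
      ∃ x₂ y₂, Special M₁ M₂ M₀ x₂ y₂ ∧ x₂ ≠ x₁ ∧
        (∀ x y, Special M₁ M₂ M₀ x y → (sepG M₁ M₂).Reachable x x₁ → x = x₁ ∨ x = x₂) ∧
        Alternating M₁ M₂ x₁ y₁ x₂ y₂) :
    ∃ P : Fin 6 → G.Subgraph, (∀ i, (P i).IsPerfectMatching) ∧ P 0 = M₁ ∧ P 1 = M₂ ∧
      (∀ e ∈ G.edgeSet, Set.ncard {i : Fin 6 | e ∈ (P i).edgeSet} = 2) ∧
      (∀ (i : Fin 6) (v : V),
        Even (Set.ncard {e : Sym2 V | e ∈ G.edgeSet \ (P i).edgeSet ∧ v ∈ e})) ∧
      (∀ e ∈ G.edgeSet, Set.ncard {i : Fin 6 | e ∈ G.edgeSet \ (P i).edgeSet} = 4) := by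
  obtain ⟨P, hP, hP0, hP1, hP2⟩ := main_theorem G hG M₁ M₂ M₀ h₁ h₂ h₀ hdis hcov hsp
  have hedge : ∀ e ∈ G.edgeSet, {i : Fin 6 | e ∈ (P i).edgeSet}.ncard = 2 := by
    intro e he
    induction e using Sym2.ind with
    | _ u v => exact hP2 u v he
  refine ⟨P, hP, hP0, hP1, hedge, ?_, ?_⟩
  · intro i v
    have hcard : Set.ncard {e : Sym2 V | e ∈ G.edgeSet \ (P i).edgeSet ∧ v ∈ e} = 2 := by
      obtain ⟨m, hm, _, _, ha⟩ := pm_fun (P i) (hP i)
      have e1 : {e : Sym2 V | e ∈ G.edgeSet \ (P i).edgeSet ∧ v ∈ e}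
          = (fun w => s(v, w)) '' (G.neighborSet v \ {m v}) := by
        ext e
        constructor
        · rintro ⟨⟨h1, h2⟩, h3⟩
          obtain ⟨w, rfl⟩ := Sym2.mem_iff_exists.1 h3
          refine ⟨w, ⟨h1, ?_⟩, rfl⟩
          intro h
          apply h2
          rw [Set.mem_singleton_iff] at h
          rw [SimpleGraph.Subgraph.mem_edgeSet, hm]
          exact h
        · rintro ⟨w, ⟨h1, h2⟩, rfl⟩
          refine ⟨⟨h1, ?_⟩, Sym2.mem_mk_left v w⟩
          intro h
          apply h2
          rw [SimpleGraph.Subgraph.mem_edgeSet, hm] at h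
          exact h
      rw [e1, Set.ncard_image_of_injective _ (fun a b h => Sym2.congr_right.1 h)]
      rw [Set.ncard_sdiff (by
        intro w hw
        rw [Set.mem_singleton_iff.1 hw]
        exact ha v) (Set.toFinite _), Set.ncard_singleton]
      have : (G.neighborSet v).ncard = 3 := by
        rw [← hG v, Set.ncard_eq_toFinset_card']
        rfl
      rw [this]
    rw [hcard]
    decide
  · intro e he
    have e1 : {i : Fin 6 | e ∈ G.edgeSet \ (P i).edgeSet}
        = Set.univ \ {i : Fin 6 | e ∈ (P i).edgeSet} := by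
      ext i
      simp [he]
    rw [e1, Set.ncard_sdiff (Set.subset_univ _) (Set.toFinite _), hedge e he, Set.ncard_univ]
    simp

end Pool.Agent.Results.MP_40718a_co.AlternatingPairs
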