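import Mathlib
import Pool.Agent.H416R2.BFMain
import Pool.Agent.H416R3.BP.Build
import Pool.Agent.H416R3.BP.Main

set_option autoImplicit false

/-!
# MP_40718a_co: a parity criterion for Berge–Fulkerson coverings / Jaeger quadruple covers
-/

namespace Pool.Agent.Results.MP_40718a_co.ParityCriterion

open Pool.Agent.H416R3.BP

/-- Let `G` be a finite simple cubic graph, `v` a vertex and `x`, `y` two nonadjacent neighbours
of `v`.  If the number of Hamiltonian circuits of `G - {v, y}` plus the number of pairs of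
disjoint circuits covering `V ∖ {v}`, the first one of even length and through `x`, the second
one through `y`, is odd, then `G` has six perfect matchings that cover every edge exactly twice;
their complements are six even subgraphs covering every edge exactly four times. -/
theorem result {V : Type*} [Fintype V] (G : SimpleGraph V) [DecidableRel G.Adj]
    (hG : G.IsRegularOfDegree 3) (v x y : V) (hvx : G.Adj v x) (hvy : G.Adj v y) (hxy : x ≠ y)
    (hn : ¬ G.Adj x y)
    (hodd : Odd (Set.ncard {Z : G.Subgraph | Z.Connected ∧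
          (∀ u ∈ Z.verts, (Z.neighborSet u).ncard = 2) ∧ Z.verts = {v, y}ᶜ} +
        Set.ncard {Z : G.Subgraph × G.Subgraph |
          (Z.1.Connected ∧ ∀ u ∈ Z.1.verts, (Z.1.neighborSet u).ncard = 2) ∧
          (Z.2.Connected ∧ ∀ u ∈ Z.2.verts, (Z.2.neighborSet u).ncard = 2) ∧
          Disjoint Z.1.verts Z.2.verts ∧ Z.1.verts ∪ Z.2.verts = {v}ᶜ ∧
          x ∈ Z.1.verts ∧ y ∈ Z.2.verts ∧ Even Z.1.verts.ncard})) :
    ∃ P : Fin 6 → G.Subgraph, (∀ i, (P i).IsPerfectMatching) ∧
      (∀ e ∈ G.edgeSet, Set.ncard {i : Fin 6 | e ∈ (P i).edgeSet} = 2) ∧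
      (∀ (i : Fin 6) (v : V),
        Even (Set.ncard {e : Sym2 V | e ∈ G.edgeSet \ (P i).edgeSet ∧ v ∈ e})) ∧
      (∀ e ∈ G.edgeSet, Set.ncard {i : Fin 6 | e ∈ G.edgeSet \ (P i).edgeSet} = 4) := by
  have hdeg : ∀ u, (G.neighborSet u).ncard = 3 := by
    intro u
    rw [← hG u, Set.ncard_eq_toFinset_card']
    rfl
  have hBF : HasBF G := by
    by_contra hB
    obtain ⟨H, hHG, hHx, hHv, hHy⟩ := exists_pole G hdeg v x y hvx hvy hxy hn
    subst hHG hHx hHv hHy
    have h := bp_main H hB
    rw [← Nat.not_odd_iff_even] at h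
    apply h
    have e1 : hamSet H.G H.v H.y = {Z : H.G.Subgraph | Z.Connected ∧
          (∀ u ∈ Z.verts, (Z.neighborSet u).ncard = 2) ∧ Z.verts = {H.v, H.y}ᶜ} := by
      ext Z
      simp only [hamSet, IsCircuit, Set.mem_ofPred_eq, and_assoc]
    rw [e1]
    exact hodd
  obtain ⟨P, hP, hedge⟩ := hBF
  refine ⟨P, hP, hedge, ?_, ?_⟩
  · intro i v
    have hcard : Set.ncard {e : Sym2 V | e ∈ G.edgeSet \ (P i).edgeSet ∧ v ∈ e} = 2 := by
      obtain ⟨m, hm, _, _, ha⟩ := Pool.Agent.H416R2.BF.pm_fun (P i) (hP i)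
      have e1 : {e : Sym2 V | e ∈ G.edgeSet \ (P i).edgeSet ∧ v ∈ e}
          = (fun w => s(v, w)) '' (G.neighborSet v \ {m v}) := by
        ext e
        constructor
        · rintro ⟨⟨h1, h2⟩, h3⟩
          obtain ⟨w, rfl⟩ := Sym2.mem_iff_exists.1 h3
          refine ⟨w, ⟨h1, ?_⟩, rfl⟩
          intro h
          apply h2
          rw [Set.mem_singleton_iff] at h
          rw [SimpleGraph.Subgraph.mem_edgeSet, hm]
          exact h
        · rintro ⟨w, ⟨h1, h2⟩, rfl⟩
          refine ⟨⟨h1, ?_⟩, Sym2.mem_mk_left v w⟩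
          intro h
          apply h2
          rw [SimpleGraph.Subgraph.mem_edgeSet, hm] at h
          exact h
      rw [e1, Set.ncard_image_of_injective _ (fun a b h => Sym2.congr_right.1 h)]
      rw [Set.ncard_sdiff (by
        intro w hw
        rw [Set.mem_singleton_iff.1 hw]
        exact ha v) (Set.toFinite _), Set.ncard_singleton, hdeg v]
    rw [hcard]
    decide
  · intro e he
    have e1 : {i : Fin 6 | e ∈ G.edgeSet \ (P i).edgeSet}
        = Set.univ \ {i : Fin 6 | e ∈ (P i).edgeSet} := by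
      ext i
      simp [he]
    rw [e1, Set.ncard_sdiff (Set.subset_univ _) (Set.toFinite _), hedge e he, Set.ncard_univ]
    simp

end Pool.Agent.Results.MP_40718a_co.ParityCriterion
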